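import Mathlib

/-!
Every subgroup of `ℤ_p` is minimal (Prodanov), in the form needed later, together with small facts
on `ℤ_p`.
-/

namespace Pool.Agent.Helper76.HM

open Filter Topology

variable {p : ℕ} [hp : Fact p.Prime]

/-- the ball `p^m ℤ_p` is a neighbourhood of `0`. -/
theorem ball_mem_nhds (m : ℕ) (w : ℤ_[p]) :
    {x : ℤ_[p] | x - w ∈ Ideal.span {(p : ℤ_[p]) ^ m}} ∈ 𝓝 w := by
  have h : Metric.closedBall w ((p : ℝ) ^ (-(m : ℤ))) ∈ 𝓝 w := by
    apply Metric.closedBall_mem_nhds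
    have : (0 : ℝ) < p := by exact_mod_cast hp.out.pos
    positivity
  refine Filter.mem_of_superset h ?_
  intro x hx
  simp only [Metric.mem_closedBall, dist_eq_norm] at hx
  simp only [Set.mem_ofPred_eq]
  exact (PadicInt.norm_le_pow_iff_mem_span_pow _ m).1 hx

/-- every neighbourhood of `0` in `ℤ_p` contains some `p^m ℤ_p`. -/
theorem exists_ball_subset {U : Set ℤ_[p]} (hU : U ∈ 𝓝 (0 : ℤ_[p])) :
    ∃ m : ℕ, ∀ x : ℤ_[p], x ∈ Ideal.span {(p : ℤ_[p]) ^ m} → x ∈ U := by
  rw [Metric.mem_nhds_iff] at hU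
  obtain ⟨ε, hε, hsub⟩ := hU
  obtain ⟨m, hm⟩ : ∃ m : ℕ, (p : ℝ) ^ (-(m : ℤ)) < ε := PadicInt.exists_pow_neg_lt p hε
  refine ⟨m, fun x hx => hsub ?_⟩
  rw [Metric.mem_ball, dist_zero_right]
  exact lt_of_le_of_lt ((PadicInt.norm_le_pow_iff_mem_span_pow x m).2 hx) hm

/-- divisibility in `ℤ_p` by comparison of norms. -/
theorem dvd_of_norm_le {a w : ℤ_[p]} (h : ‖a‖ ≤ ‖w‖) : w ∣ a := by
  by_cases hw : w = 0
  · subst hw
    have : ‖a‖ = 0 := le_antisymm (by simpa using h) (norm_nonneg a)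
    have ha : a = 0 := by simpa using this
    rw [ha]
  · have hwn : (w : ℚ_[p]) ≠ 0 := by simpa using hw
    refine ⟨⟨(a : ℚ_[p]) / w, ?_⟩, ?_⟩
    · rw [norm_div]
      rw [div_le_one (norm_pos_iff.2 hwn)]
      exact h
    · apply Subtype.ext
      push_cast
      field_simp

/-- Prodanov: a Hausdorff group topology on a subgroup of `ℤ_p` which is coarser than the `p`-adic
one is the `p`-adic one. -/
theorem prodanov {B : Type*} [Group B] (ι : B →* Multiplicative ℤ_[p])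
    (hι : Function.Injective ι) (σ : TopologicalSpace B) (hσ : @IsTopologicalGroup B σ _)
    (hT : @T2Space B σ) (hle : TopologicalSpace.induced ι inferInstance ≤ σ) :
    σ = TopologicalSpace.induced ι inferInstance := by
  classical
  set τ : TopologicalSpace B := TopologicalSpace.induced ι inferInstance with hτ
  have hτg : @IsTopologicalGroup B τ _ := topologicalGroup_induced ι
  refine @IsTopologicalGroup.ext B _ σ τ hσ hτg ?_
  refine le_antisymm ?_ (nhds_mono hle)
  -- additive version of the map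
  set a : B → ℤ_[p] := fun b => Multiplicative.toAdd (ι b) with ha
  have hamul : ∀ x y, a (x * y) = a x + a y := fun x y => by simp [ha]
  have hapow : ∀ x (n : ℕ), a (x ^ n) = n * a x := fun x n => by simp [ha, nsmul_eq_mul]
  have hadiv : ∀ x y, a (x / y) = a x - a y := fun x y => by simp [ha]
  have hainj : Function.Injective a := fun x y h => hι (by simpa [ha] using h)
  have hnhds : ∀ U : Set B, U ∈ @nhds B τ 1 ↔
      ∃ m : ℕ, ∀ b, a b ∈ Ideal.span {(p : ℤ_[p]) ^ m} → b ∈ U := by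
    intro U
    rw [hτ, nhds_induced, Filter.mem_comap]
    constructor
    · rintro ⟨t, ht, htU⟩
      have ht' : (Multiplicative.ofAdd ⁻¹' t : Set ℤ_[p]) ∈ 𝓝 (0 : ℤ_[p]) := by
        have : ι 1 = Multiplicative.ofAdd (0 : ℤ_[p]) := by simp
        rw [this] at ht
        exact ht
      obtain ⟨m, hm⟩ := exists_ball_subset ht'
      exact ⟨m, fun b hb => htU (hm (a b) hb)⟩
    · rintro ⟨m, hm⟩
      refine ⟨Multiplicative.toAdd ⁻¹' {x : ℤ_[p] | x - 0 ∈ Ideal.span {(p : ℤ_[p]) ^ m}}, ?_, ?_⟩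
      · have := ball_mem_nhds (p := p) m 0
        have h1 : ι 1 = Multiplicative.ofAdd (0 : ℤ_[p]) := by simp
        rw [h1]
        exact this
      · intro b hb
        apply hm
        simpa using hb
  intro U hU
  rw [hnhds] at hU
  obtain ⟨j, hj⟩ := hU
  by_contra hcon
  have hcon' : {b : B | a b ∈ Ideal.span {(p : ℤ_[p]) ^ j}} ∉ @nhds B σ 1 := fun h =>
    hcon (Filter.mem_of_superset h hj)
  rw [Filter.mem_iff_ultrafilter] at hcon'
  push Not at hcon'
  obtain ⟨g, hg, hgj⟩ := hcon'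
  have hgj' : {b : B | a b ∈ Ideal.span {(p : ℤ_[p]) ^ j}}ᶜ ∈ g :=
    Ultrafilter.compl_mem_iff_notMem.2 hgj
  obtain ⟨b, hb⟩ := g.nonempty_of_mem hgj'
  -- the limit in the compact group `ℤ_p`
  obtain ⟨w, -, hw⟩ := isCompact_univ.ultrafilter_le_nhds (g.map a) (by simp)
  have hball : ∀ m : ℕ, {c : B | a c - w ∈ Ideal.span {(p : ℤ_[p]) ^ m}} ∈ g := by
    intro m
    have := hw (ball_mem_nhds m w)
    exact this
  have hwj : w ∉ Ideal.span {(p : ℤ_[p]) ^ j} := by
    intro hwj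
    obtain ⟨c, hc1, hc2⟩ := g.nonempty_of_mem (Filter.inter_mem (hball j) hgj')
    exact hc2 (by
      have := Ideal.add_mem _ hc1 hwj
      simpa using this)
  have hdvd : w ∣ (p : ℤ_[p]) ^ j * a b := by
    apply dvd_of_norm_le
    have h1 : ‖(p : ℤ_[p]) ^ j * a b‖ ≤ (p : ℝ) ^ (-(j : ℤ)) :=
      (PadicInt.norm_le_pow_iff_mem_span_pow _ j).2
        (Ideal.mul_mem_right _ _ (Ideal.mem_span_singleton_self _))
    have h2 : ¬ ‖w‖ ≤ (p : ℝ) ^ (-(j : ℤ)) := fun h =>
      hwj ((PadicInt.norm_le_pow_iff_mem_span_pow _ j).1 h)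
    linarith [not_le.1 h2]
  obtain ⟨u, hu⟩ := hdvd
  -- `b ^ (p^j)` lies in every `σ`-neighbourhood of `1`
  have hall : ∀ V ∈ @nhds B σ 1, b ^ (p ^ j) ∈ V := by
    intro V hV
    obtain ⟨V', hV', hsplit⟩ := @exists_nhds_split_inv B σ _ hσ V hV
    have hV'τ : V' ∈ @nhds B τ 1 := nhds_mono hle hV'
    rw [hnhds] at hV'τ
    obtain ⟨m, hm⟩ := hV'τ
    set N : ℕ := PadicInt.appr u m with hN
    have hNu : u - (N : ℤ_[p]) ∈ Ideal.span {(p : ℤ_[p]) ^ m} := PadicInt.appr_spec m u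
    have hpow : {c : B | c ^ N ∈ V'} ∈ g := by
      apply hg
      have hcont : @Continuous B B σ σ (fun c => c ^ N) :=
        @continuous_pow B σ _ hσ.toContinuousMul N
      have := (@Continuous.continuousAt B B σ σ _ 1 hcont)
      have h3 : @Filter.Tendsto B B (fun c => c ^ N) (@nhds B σ 1) (@nhds B σ ((1 : B) ^ N)) :=
        this
      rw [one_pow] at h3
      exact h3 hV'
    obtain ⟨c, hc1, hc2⟩ := g.nonempty_of_mem (Filter.inter_mem hpow (hball m))
    have hq : c ^ N / b ^ (p ^ j) ∈ V' := by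
      apply hm
      rw [hadiv, hapow, hapow]
      have : (N : ℤ_[p]) * a c - ((p ^ j : ℕ) : ℤ_[p]) * a b
          = (N : ℤ_[p]) * (a c - w) - (u - N) * w := by
        push_cast
        rw [hu]; ring
      rw [this]
      exact Ideal.sub_mem _ (Ideal.mul_mem_left _ _ hc2) (Ideal.mul_mem_right _ _ hNu)
    have hcomm : c ^ N / (c ^ N / b ^ (p ^ j)) = b ^ (p ^ j) := by
      apply hainj
      rw [hadiv, hadiv]; ring
    have := hsplit (c ^ N) hc1 _ hq
    rwa [hcomm] at this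
  have hb1 : b ^ (p ^ j) = 1 := by
    by_contra hne
    have := @compl_singleton_mem_nhds B σ (@T2Space.t1Space B σ hT) _ _ (Ne.symm hne)
    exact hall _ this rfl
  have hab : a b = 0 := by
    have h1 : ((p ^ j : ℕ) : ℤ_[p]) * a b = 0 := by
      rw [← hapow, hb1]
      simp [ha]
    rcases mul_eq_zero.1 h1 with h | h
    · exfalso
      have hp0 : (p : ℕ) ≠ 0 := hp.out.ne_zero
      have : (p ^ j : ℕ) ≠ 0 := pow_ne_zero _ hp0
      exact this (by exact_mod_cast h)
    · exact h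
  apply hb
  simp [hab]

end Pool.Agent.Helper76.HM
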