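import Mathlib
import Pool.Agent.Helper76.HM.Prodanov

/-!
Torsion-free groups with an open normal subgroup `ℤ_p` and quotient of finite exponent are
hereditarily minimal.
-/

namespace Pool.Agent.Helper76.HM

open Filter Topology

/-- The topology `τ` of the group `G` is minimal: it is a Hausdorff group topology and no Hausdorff
group topology on `G` is strictly coarser. -/
def MinimalTopology (G : Type*) [Group G] (τ : TopologicalSpace G) : Prop :=
  @IsTopologicalGroup G τ _ ∧ @T2Space G τ ∧
    ∀ σ : TopologicalSpace G, @IsTopologicalGroup G σ _ → @T2Space G σ → τ ≤ σ → σ = τ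

/-- Every subgroup of `G`, with the subspace topology, is minimal. -/
def HereditarilyMinimal (G : Type*) [Group G] [TopologicalSpace G] : Prop :=
  ∀ H : Subgroup G, MinimalTopology H instTopologicalSpaceSubtype

variable {p : ℕ} [hp : Fact p.Prime]

/-- continuous additive maps `ℤ_p → ℤ_p` are multiplications. -/
theorem continuous_add_eq_mul (f : ℤ_[p] →+ ℤ_[p]) (hf : Continuous f) (x : ℤ_[p]) :
    f x = x * f 1 := by
  have h : (f : ℤ_[p] → ℤ_[p]) = fun x => x * f 1 := by
    apply DenseRange.equalizer (PadicInt.denseRange_intCast (p := p)) hf (by fun_prop)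
    funext k
    simp only [Function.comp]
    have : f ((k : ℤ_[p])) = k • f 1 := by
      rw [← map_zsmul]; simp
    rw [this, zsmul_eq_mul]
  exact congrFun h x

variable {G : Type*} [Group G] [TopologicalSpace G] [IsTopologicalGroup G]

/-- the open normal subgroup is central. -/
theorem central (htf : ∀ (g : G) (m : ℕ), m ≠ 0 → g ^ m = 1 → g = 1)
    (K : Subgroup G) [hK : K.Normal] (e : K ≃ₜ* Multiplicative ℤ_[p])
    (n : ℕ) (hn : n ≠ 0) (hexp : ∀ g : G, g ^ n ∈ K) (g : G) (x : G) (hx : x ∈ K) :
    g * x = x * g := by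
  by_cases hg1 : g ^ n = 1
  · rw [htf g n hn hg1]; simp
  -- conjugation by `g` as an additive self-map of `ℤ_p`
  let c : K →* K := (MulAut.conjNormal g : MulAut K).toMonoidHom
  have hc : Continuous c := by
    apply Continuous.subtype_mk
    have : Continuous fun y : K => g * (y : G) * g⁻¹ := by fun_prop
    exact this
  let f : ℤ_[p] →+ ℤ_[p] :=
    { toFun := fun y => Multiplicative.toAdd (e (c (e.symm (Multiplicative.ofAdd y))))
      map_zero' := by simp
      map_add' := fun y z => by simp }
  have hf : Continuous f := by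
    have h1 : Continuous fun y : ℤ_[p] => e (c (e.symm (Multiplicative.ofAdd y))) := by
      have h2 : Continuous fun y : ℤ_[p] => e.symm (Multiplicative.ofAdd y) :=
        e.symm.continuous.comp continuous_ofAdd
      exact e.continuous.comp (hc.comp h2)
    exact continuous_toAdd.comp h1
  set k0 : K := ⟨g ^ n, hexp g⟩ with hk0
  have hck0 : c k0 = k0 := by
    apply Subtype.ext
    change g * g ^ n * g⁻¹ = g ^ n
    rw [← pow_succ', pow_succ]; simp
  set y0 : ℤ_[p] := Multiplicative.toAdd (e k0) with hy0
  have hy0ne : y0 ≠ 0 := by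
    intro h
    have : e k0 = 1 := by
      rw [hy0] at h
      exact Multiplicative.toAdd.injective (by simpa using h)
    have : k0 = 1 := by
      have := congrArg e.symm this
      simpa using this
    exact hg1 (by simpa [hk0] using congrArg Subtype.val this)
  have hfy0 : f y0 = y0 := by
    change Multiplicative.toAdd (e (c (e.symm (Multiplicative.ofAdd y0)))) = y0
    rw [hy0]
    simp [hck0]
  have hf1 : f 1 = 1 := by
    rw [continuous_add_eq_mul f hf] at hfy0
    have : y0 * (f 1 - 1) = 0 := by rw [mul_sub, hfy0]; ring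
    rcases mul_eq_zero.1 this with h | h
    · exact absurd h hy0ne
    · exact sub_eq_zero.1 h
  have hfid : ∀ y, f y = y := fun y => by rw [continuous_add_eq_mul f hf, hf1, mul_one]
  have hcid : ∀ y : K, c y = y := by
    intro y
    have h := hfid (Multiplicative.toAdd (e y))
    change Multiplicative.toAdd (e (c (e.symm (Multiplicative.ofAdd
      (Multiplicative.toAdd (e y)))))) = Multiplicative.toAdd (e y) at h
    have h2 : e (c y) = e y := by
      have := Multiplicative.toAdd.injective h
      simpa using this
    exact e.injective h2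
  have h3 := congrArg Subtype.val (hcid ⟨x, hx⟩)
  change g * x * g⁻¹ = x at h3
  calc g * x = g * x * g⁻¹ * g := by group
    _ = x * g := by rw [h3]

/-- **Criterion.** -/
theorem criterion [T2Space G] (htf : ∀ (g : G) (m : ℕ), m ≠ 0 → g ^ m = 1 → g = 1)
    (K : Subgroup G) [hK : K.Normal] (e : K ≃ₜ* Multiplicative ℤ_[p])
    (n : ℕ) (hn : n ≠ 0) (hexp : ∀ g : G, g ^ n ∈ K) : HereditarilyMinimal G := by
  intro H
  refine ⟨inferInstance, inferInstance, ?_⟩
  intro σ hσ hT hle
  set τ : TopologicalSpace H := instTopologicalSpaceSubtype with hτ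
  -- the intersection `H ∩ K`
  let B : Subgroup H := K.subgroupOf H
  have hBmem : ∀ x : H, x ∈ B ↔ (x : G) ∈ K := fun x => Subgroup.mem_subgroupOf
  let κ : B →* K :=
    { toFun := fun b => ⟨((b : H) : G), (hBmem b).1 b.2⟩
      map_one' := rfl
      map_mul' := fun _ _ => rfl }
  let ι : B →* Multiplicative ℤ_[p] := e.toMulEquiv.toMonoidHom.comp κ
  have hιapp : ∀ b, ι b = e (κ b) := fun b => rfl
  have hκinj : Function.Injective κ := by
    intro x y hxy
    apply Subtype.ext
    apply Subtype.ext
    have h := congrArg (fun z : K => (z : G)) hxy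
    exact h
  have hιinj : Function.Injective ι := fun x y h => hκinj (e.injective h)
  let σB : TopologicalSpace B := TopologicalSpace.induced (Subtype.val : B → H) σ
  have hσB : @IsTopologicalGroup B σB _ := by
    let _ := σ
    have _ := hσ
    exact topologicalGroup_induced B.subtype
  have hTB : @T2Space B σB :=
    @T2Space.of_injective_continuous B H σB σ hT Subtype.val Subtype.val_injective
      continuous_induced_dom
  have hind : TopologicalSpace.induced ι inferInstance
      = TopologicalSpace.induced (Subtype.val : B → H) τ := by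
    have h1 : (instTopologicalSpaceSubtype : TopologicalSpace K)
        = TopologicalSpace.induced e inferInstance :=
      e.toHomeomorph.isInducing.eq_induced
    have h2 : TopologicalSpace.induced ι inferInstance
        = TopologicalSpace.induced κ (TopologicalSpace.induced e inferInstance) := by
      rw [induced_compose]; rfl
    rw [h2, ← h1]
    change TopologicalSpace.induced κ (TopologicalSpace.induced _ _)
      = TopologicalSpace.induced _ (TopologicalSpace.induced _ _)
    rw [induced_compose, induced_compose]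
    rfl
  have hleB : TopologicalSpace.induced ι inferInstance ≤ σB := by
    rw [hind]
    exact induced_mono hle
  have hEq : σB = TopologicalSpace.induced ι inferInstance :=
    prodanov ι hιinj σB hσB hTB hleB
  -- `H ∩ K` is a `σ`-neighbourhood of `1`
  have hnp : (n : ℤ_[p]) ≠ 0 := by exact_mod_cast hn
  have hnball : {x : ℤ_[p] | (n : ℤ_[p]) ∣ x} ∈ 𝓝 (0 : ℤ_[p]) := by
    obtain ⟨m, hm⟩ := PadicInt.exists_pow_neg_lt p (norm_pos_iff.2 hnp)
    refine Filter.mem_of_superset (ball_mem_nhds m 0) ?_
    intro x hx
    simp only [Set.mem_ofPred_eq, sub_zero] at hx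
    exact dvd_of_norm_le (le_of_lt (lt_of_le_of_lt
      ((PadicInt.norm_le_pow_iff_mem_span_pow x m).2 hx) hm))
  have hW : {b : B | (n : ℤ_[p]) ∣ Multiplicative.toAdd (ι b)} ∈ @nhds B σB 1 := by
    rw [hEq, nhds_induced]
    refine ⟨Multiplicative.toAdd ⁻¹' {x : ℤ_[p] | (n : ℤ_[p]) ∣ x}, ?_, fun b hb => hb⟩
    have h1 : ι 1 = Multiplicative.ofAdd (0 : ℤ_[p]) := by simp
    rw [h1]
    exact hnball
  have hBnhds : (B : Set H) ∈ @nhds H σ 1 := by
    have hW' : {b : B | (n : ℤ_[p]) ∣ Multiplicative.toAdd (ι b)} ∈
        @nhds B (TopologicalSpace.induced (Subtype.val : B → H) σ) 1 := hW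
    rw [@nhds_induced H B σ Subtype.val 1] at hW'
    obtain ⟨O, hO, hOW⟩ := hW'
    have hcont : @Continuous H H σ σ (fun c => c ^ n) :=
      @continuous_pow H σ _ hσ.toContinuousMul n
    have h3 : @Filter.Tendsto H H (fun c => c ^ n) (@nhds H σ 1) (@nhds H σ ((1 : H) ^ n)) :=
      @Continuous.continuousAt H H σ σ _ 1 hcont
    rw [one_pow] at h3
    refine Filter.mem_of_superset (h3 hO) ?_
    intro x hx
    have hxn : x ^ n ∈ B := (hBmem _).2 (by simpa using hexp (x : G))
    have hd : (n : ℤ_[p]) ∣ Multiplicative.toAdd (ι ⟨x ^ n, hxn⟩) := hOW hx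
    obtain ⟨y, hy⟩ := hd
    set k : K := e.symm (Multiplicative.ofAdd y) with hk
    have hkn : k ^ n = κ ⟨x ^ n, hxn⟩ := by
      apply e.injective
      rw [map_pow, hk]
      apply Multiplicative.toAdd.injective
      simp only [toAdd_pow]
      rw [← hιapp, hy]
      simp
    have hkn' : (k : G) ^ n = (x : G) ^ n := by
      have := congrArg Subtype.val hkn
      simpa [κ] using this
    have hcomm : Commute (x : G) ((k : G)⁻¹) := by
      have := central htf K e n hn hexp (x : G) (k : G) k.2
      exact (show Commute (x : G) (k : G) from this).inv_right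
    have h1 : ((x : G) * (k : G)⁻¹) ^ n = 1 := by
      rw [hcomm.mul_pow, inv_pow, hkn']; simp
    have h2 := htf _ n hn h1
    have h3 : (x : G) = k := by
      have := mul_inv_eq_one.1 h2
      exact this
    exact (hBmem x).2 (h3 ▸ k.2)
  -- conclusion
  change σ = τ
  refine @IsTopologicalGroup.ext H _ σ τ hσ inferInstance ?_
  refine le_antisymm ?_ (nhds_mono hle)
  intro U hU
  have hUB : (Subtype.val ⁻¹' U : Set B) ∈ @nhds B σB 1 := by
    rw [hEq, hind, nhds_induced]
    exact ⟨U, hU, subset_rfl⟩
  have hUB' : (Subtype.val ⁻¹' U : Set B) ∈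
      @nhds B (TopologicalSpace.induced (Subtype.val : B → H) σ) 1 := hUB
  rw [@nhds_induced H B σ Subtype.val 1] at hUB'
  obtain ⟨O, hO, hOU⟩ := hUB'
  refine Filter.mem_of_superset (Filter.inter_mem hO hBnhds) ?_
  rintro x ⟨hx1, hx2⟩
  exact hOU (show (⟨x, hx2⟩ : B) ∈ Subtype.val ⁻¹' O from hx1)

end Pool.Agent.Helper76.HM
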