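import Mathlib
import Pool.Agent.Helper76.HM.Criterion

/-!
From a torsion-free discrete group `A` with a central element `d` such that `A / ⟨d⟩` is infinite
of exponent dividing `p ^ s`, a locally compact hereditarily minimal group which is neither
discrete nor compact and has non-trivial center.
-/

namespace Pool.Agent.Helper76.HM

open Filter Topology

universe u

variable {p : ℕ} [hp : Fact p.Prime]

section

variable {A : Type u} [Group A] (d : A)

/-- the central subgroup which is factored out. -/
noncomputable def ker (p : ℕ) [Fact p.Prime] (d : A) : Subgroup (A × Multiplicative ℤ_[p]) :=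
  Subgroup.zpowers (d, Multiplicative.ofAdd (-1 : ℤ_[p]))

theorem mem_ker {x : A × Multiplicative ℤ_[p]} :
    x ∈ ker p d ↔ ∃ k : ℤ, x = (d ^ k, Multiplicative.ofAdd (-(k : ℤ_[p]))) := by
  unfold ker
  rw [Subgroup.mem_zpowers_iff]
  constructor
  · rintro ⟨k, rfl⟩
    refine ⟨k, ?_⟩
    ext
    · simp
    · simp
  · rintro ⟨k, rfl⟩
    refine ⟨k, ?_⟩
    ext
    · simp
    · simp

theorem ker_normal (hd : d ∈ Subgroup.center A) : (ker p d).Normal := by
  refine ⟨fun x hx g => ?_⟩
  rw [mem_ker] at hx
  obtain ⟨k, rfl⟩ := hx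
  rw [mem_ker]
  refine ⟨k, ?_⟩
  have hdk : d ^ k ∈ Subgroup.center A := Subgroup.zpow_mem _ hd k
  ext
  · simp only [Prod.fst_mul, Prod.fst_inv]
    rw [Subgroup.mem_center_iff.1 hdk g.1]
    simp
  · simp only [Prod.snd_mul, Prod.snd_inv]
    rw [mul_comm g.2, mul_assoc]; simp

end

/-- the construction. -/
theorem construct {A : Type u} [Group A] (htf : ∀ (a : A) (m : ℕ), m ≠ 0 → a ^ m = 1 → a = 1)
    (d : A) (hd : d ∈ Subgroup.center A) (s : ℕ)
    (hexp : ∀ a : A, a ^ (p ^ s) ∈ Subgroup.zpowers d)
    (hinf : ¬ (Subgroup.zpowers d).FiniteIndex) :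
    ∃ (G : Type u) (_ : Group G) (_ : TopologicalSpace G), IsTopologicalGroup G ∧ T2Space G ∧
      LocallyCompactSpace G ∧ HereditarilyMinimal G ∧ ¬ DiscreteTopology G ∧ ¬ CompactSpace G ∧
      Subgroup.center G ≠ ⊥ := by
  classical
  have hps : p ^ s ≠ 0 := pow_ne_zero _ hp.out.ne_zero
  -- `d` has infinite order
  have hd1 : d ≠ 1 := by
    intro h
    apply hinf
    have hA : ∀ a : A, a = 1 := by
      intro a
      have := hexp a
      rw [h, Subgroup.zpowers_one_eq_bot, Subgroup.mem_bot] at this
      exact htf a _ hps this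
    have : Subgroup.zpowers d = ⊤ := by
      ext a; simp [hA a, one_mem]
    rw [this]; infer_instance
  have hdz : ∀ k : ℤ, d ^ k = 1 → k = 0 := by
    intro k hk
    by_contra hne
    apply hd1
    apply htf d k.natAbs (by simpa using hne)
    rcases Int.natAbs_eq k with h | h
    · rw [h] at hk; simpa using hk
    · rw [h] at hk; simpa using hk
  have hdinj : ∀ k l : ℤ, d ^ k = d ^ l → k = l := by
    intro k l h
    have := hdz (k - l) (by rw [zpow_sub, h]; simp)
    omega
  let _ : TopologicalSpace A := ⊥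
  have _ : DiscreteTopology A := ⟨rfl⟩
  have hNn : (ker p d).Normal := ker_normal d hd
  let N : Subgroup (A × Multiplicative ℤ_[p]) := ker p d
  have hNclosed : IsClosed (N : Set (A × Multiplicative ℤ_[p])) := by
    rw [← isOpen_compl_iff, isOpen_iff_mem_nhds]
    rintro ⟨a, z⟩ haz
    by_cases ha : a ∈ Subgroup.zpowers d
    · obtain ⟨k, rfl⟩ := Subgroup.mem_zpowers_iff.1 ha
      have hz : z ≠ Multiplicative.ofAdd (-(k : ℤ_[p])) := by
        rintro rfl
        exact haz ((mem_ker d).2 ⟨k, rfl⟩)
      have hmem : ({d ^ k} : Set A) ×ˢ ({Multiplicative.ofAdd (-(k : ℤ_[p]))}ᶜ :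
          Set (Multiplicative ℤ_[p])) ∈ 𝓝 (d ^ k, z) := by
        apply prod_mem_nhds
        · exact (isOpen_discrete _).mem_nhds rfl
        · exact isOpen_compl_singleton.mem_nhds hz
      refine Filter.mem_of_superset hmem ?_
      rintro ⟨a', z'⟩ ⟨h1, h2⟩ h3
      obtain ⟨l, hl⟩ := (mem_ker d).1 h3
      simp only [Set.mem_singleton_iff] at h1
      simp only [Prod.mk.injEq] at hl
      have : k = l := hdinj k l (by rw [← h1, hl.1])
      subst this
      exact h2 hl.2
    · have hmem : ({a} : Set A) ×ˢ (Set.univ : Set (Multiplicative ℤ_[p])) ∈ 𝓝 (a, z) := by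
        apply prod_mem_nhds
        · exact (isOpen_discrete _).mem_nhds rfl
        · exact Filter.univ_mem
      refine Filter.mem_of_superset hmem ?_
      rintro ⟨a', z'⟩ ⟨h1, h2⟩ h3
      obtain ⟨l, hl⟩ := (mem_ker d).1 h3
      simp only [Set.mem_singleton_iff] at h1
      simp only [Prod.mk.injEq] at hl
      exact ha (by rw [← h1, hl.1]; exact Subgroup.zpow_mem_zpowers d l)
  let G : Type u := (A × Multiplicative ℤ_[p]) ⧸ N
  have hNc : IsClosed ((N : Subgroup _) : Set (A × Multiplicative ℤ_[p])) := hNclosed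
  have hT3 : T3Space G := by
    have _ := hNc
    exact inferInstance
  have hT2 : T2Space G := inferInstance
  -- the image of `ℤ_p`
  let j : Multiplicative ℤ_[p] →* G := (QuotientGroup.mk' N).comp (MonoidHom.inr A _)
  have hjapp : ∀ z, j z = ((1, z) : A × Multiplicative ℤ_[p]) := fun z => rfl
  have hjcont : Continuous j :=
    (continuous_quotient_mk').comp (Continuous.prodMk continuous_const continuous_id)
  have hjinj : Function.Injective j := by
    rw [injective_iff_map_eq_one]
    intro z hz
    rw [hjapp] at hz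
    have hz' : ((1, z) : A × Multiplicative ℤ_[p]) ∈ N := (QuotientGroup.eq_one_iff _).1 hz
    obtain ⟨k, hk⟩ := (mem_ker d).1 hz'
    simp only [Prod.mk.injEq] at hk
    have hk0 := hdz k hk.1.symm
    rw [hk.2, hk0]; simp
  let K : Subgroup G := j.range
  -- the key relation
  have hrel : ∀ (k : ℤ) (y : Multiplicative ℤ_[p]),
      (((d ^ k, y) : A × Multiplicative ℤ_[p]) : G)
        = j (y * Multiplicative.ofAdd (k : ℤ_[p])) := by
    intro k y
    rw [hjapp, QuotientGroup.eq]
    refine (mem_ker d).2 ⟨-k, ?_⟩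
    ext
    · simp
    · simp
  have hcentral : ∀ (g : G) (z : Multiplicative ℤ_[p]), g * j z = j z * g := by
    intro g z
    induction g using QuotientGroup.induction_on with
    | H g =>
      rw [hjapp, ← QuotientGroup.mk_mul, ← QuotientGroup.mk_mul]
      congr 1
      ext
      · simp
      · simp [mul_comm]
  have hKn : K.Normal := by
    refine ⟨?_⟩
    rintro _ ⟨z, rfl⟩ g
    rw [hcentral]; simp only [mul_inv_cancel_right]
    exact ⟨z, rfl⟩
  let e : K ≃ₜ* Multiplicative ℤ_[p] := by
    let e0 : Multiplicative ℤ_[p] ≃* K := MonoidHom.ofInjective hjinj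
    have hcont : Continuous e0 := Continuous.subtype_mk hjcont _
    have h2 := Continuous.homeoOfEquivCompactToT2 (f := e0.toEquiv) hcont
    exact (ContinuousMulEquiv.mk e0 hcont
      (Continuous.continuous_symm_of_equiv_compact_to_t2 (f := e0.toEquiv) hcont)).symm
  have hexpG : ∀ g : G, g ^ (p ^ s) ∈ K := by
    intro g
    induction g using QuotientGroup.induction_on with
    | H g =>
      obtain ⟨k, hk⟩ := Subgroup.mem_zpowers_iff.1 (hexp g.1)
      rw [← QuotientGroup.mk_pow]
      have : g ^ (p ^ s) = (d ^ k, g.2 ^ (p ^ s)) := by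
        ext
        · simp [hk]
        · simp
      rw [this, hrel]
      exact ⟨_, rfl⟩
  have htfG : ∀ (g : G) (m : ℕ), m ≠ 0 → g ^ m = 1 → g = 1 := by
    intro g m hm hg
    induction g using QuotientGroup.induction_on with
    | H g =>
      obtain ⟨a, z⟩ := g
      rw [← QuotientGroup.mk_pow, QuotientGroup.eq_one_iff] at hg
      obtain ⟨k, hk⟩ := (mem_ker d).1 hg
      obtain ⟨l, hl⟩ := Subgroup.mem_zpowers_iff.1 (hexp a)
      rw [Prod.ext_iff] at hk
      obtain ⟨hk1, hk2⟩ := hk
      simp only [Prod.pow_fst, Prod.pow_snd] at hk1 hk2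
      -- `l m = k p^s`
      have hlm : l * m = k * (p ^ s : ℕ) := by
        apply hdinj
        rw [zpow_mul, hl, zpow_mul, ← hk1]
        simp only [zpow_natCast]
        rw [← pow_mul, ← pow_mul, mul_comm]
      have hz : (m : ℤ_[p]) * Multiplicative.toAdd z = -(k : ℤ_[p]) := by
        have := congrArg Multiplicative.toAdd hk2
        simpa [nsmul_eq_mul] using this
      have hnz : ((p ^ s : ℕ) : ℤ_[p]) * Multiplicative.toAdd z = -(l : ℤ_[p]) := by
        have hm' : (m : ℤ_[p]) ≠ 0 := by exact_mod_cast hm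
        apply mul_left_cancel₀ hm'
        have h1 : ((l * m : ℤ) : ℤ_[p]) = ((k * (p ^ s : ℕ) : ℤ) : ℤ_[p]) := by rw [hlm]
        push_cast at h1 ⊢
        calc (m : ℤ_[p]) * ((p : ℤ_[p]) ^ s * Multiplicative.toAdd z)
            = (p : ℤ_[p]) ^ s * ((m : ℤ_[p]) * Multiplicative.toAdd z) := by ring
          _ = - ((k : ℤ_[p]) * (p : ℤ_[p]) ^ s) := by rw [hz]; ring
          _ = (m : ℤ_[p]) * (- (l : ℤ_[p])) := by rw [← h1]; ring
      have hdvd : ((p ^ s : ℕ) : ℤ) ∣ l := by
        have h1 : ‖(l : ℤ_[p])‖ ≤ (p : ℝ) ^ (-(s : ℤ)) := by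
          rw [PadicInt.norm_le_pow_iff_mem_span_pow, Ideal.mem_span_singleton]
          refine ⟨- Multiplicative.toAdd z, ?_⟩
          have := hnz
          push_cast at this
          rw [mul_neg, this, neg_neg]
        have h2 := (PadicInt.norm_int_le_pow_iff_dvd (p := p) (k := l) (n := s)).1 h1
        exact_mod_cast h2
      obtain ⟨l', hl'⟩ := hdvd
      have ha : a = d ^ l' := by
        have hcomm : Commute a ((d ^ l')⁻¹) := by
          have hdl : d ^ l' ∈ Subgroup.center A := Subgroup.zpow_mem _ hd l'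
          exact (show Commute a (d ^ l') from (Subgroup.mem_center_iff.1 hdl a)).inv_right
        have h1 : (a * (d ^ l')⁻¹) ^ (p ^ s) = 1 := by
          rw [hcomm.mul_pow, ← hl, hl', inv_pow]
          rw [← zpow_natCast (d ^ l'), ← zpow_mul, mul_comm l']
          simp
        exact mul_inv_eq_one.1 (htf _ _ hps h1)
      have hzz : z = Multiplicative.ofAdd (-(l' : ℤ_[p])) := by
        apply Multiplicative.toAdd.injective
        have hpp : ((p ^ s : ℕ) : ℤ_[p]) ≠ 0 := by exact_mod_cast hps
        apply mul_left_cancel₀ hpp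
        rw [hnz, hl']
        push_cast
        simp
      rw [QuotientGroup.eq_one_iff]
      exact (mem_ker d).2 ⟨l', by rw [ha, hzz]⟩
  have hKopen : IsOpen (K : Set G) := by
    have h1 : (K : Set G) = (QuotientGroup.mk : _ → G) ''
        (({1} : Set A) ×ˢ (Set.univ : Set (Multiplicative ℤ_[p]))) := by
      ext x
      constructor
      · rintro ⟨z, rfl⟩
        exact ⟨(1, z), ⟨rfl, trivial⟩, rfl⟩
      · rintro ⟨⟨a, z⟩, ⟨h1, -⟩, rfl⟩
        simp only [Set.mem_singleton_iff] at h1
        subst h1
        exact ⟨z, rfl⟩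
    rw [h1]
    exact QuotientGroup.isOpenMap_coe _ ((isOpen_discrete _).prod isOpen_univ)
  refine ⟨G, inferInstance, inferInstance, inferInstance, hT2, inferInstance,
    criterion htfG K e (p ^ s) hps hexpG, ?_, ?_, ?_⟩
  · intro hdisc
    have : DiscreteTopology (Multiplicative ℤ_[p]) :=
      e.toHomeomorph.symm.isEmbedding.discreteTopology
    have : Finite (Multiplicative ℤ_[p]) := finite_of_compact_of_discrete
    have h3 : Finite ℤ_[p] := Finite.of_equiv _ Multiplicative.toAdd
    exact not_finite ℤ_[p]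
  · intro hcomp
    apply hinf
    have hfq : Finite (G ⧸ K) := Subgroup.quotient_finite_of_isOpen K hKopen
    have hfin : K.FiniteIndex := Subgroup.finiteIndex_of_finite_quotient
    let i : A →* G := (QuotientGroup.mk' N).comp (MonoidHom.inl A _)
    have hcm : (Subgroup.zpowers d) = K.comap i := by
      ext a
      rw [Subgroup.mem_comap]
      constructor
      · intro ha
        obtain ⟨k, rfl⟩ := Subgroup.mem_zpowers_iff.1 ha
        have h1 : i (d ^ k) = (((d ^ k, 1) : A × Multiplicative ℤ_[p]) : G) := rfl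
        rw [h1, hrel]
        exact ⟨_, rfl⟩
      · rintro ⟨z, hz⟩
        rw [hjapp] at hz
        have h1 : i a = (((a, 1) : A × Multiplicative ℤ_[p]) : G) := rfl
        rw [h1, QuotientGroup.eq] at hz
        obtain ⟨k, hk⟩ := (mem_ker d).1 hz
        rw [Prod.ext_iff] at hk
        have h2 : a = d ^ k := by simpa using hk.1
        rw [h2]
        exact Subgroup.zpow_mem_zpowers d k
    rw [hcm]
    refine ⟨?_⟩
    rw [Subgroup.index_comap]
    have hdvd := Subgroup.relIndex_dvd_index_of_normal K i.range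
    intro h0
    rw [h0, zero_dvd_iff] at hdvd
    exact hfin.index_ne_zero hdvd
  · intro hbot
    have h1 : j (Multiplicative.ofAdd (1 : ℤ_[p])) ∈ Subgroup.center G := by
      rw [Subgroup.mem_center_iff]
      intro g
      exact hcentral g _
    rw [hbot, Subgroup.mem_bot, ← map_one j] at h1
    have := hjinj h1
    exact one_ne_zero (α := ℤ_[p]) (Multiplicative.ofAdd.injective this)

end Pool.Agent.Helper76.HM
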